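import Pool.Agent.K3h48.HM.Stm

/-! Project HM (MP_d2b80e_pr), brick CHA: uniform discreteness near the identity. -/

set_option autoImplicit false

open Filter Topology MeasureTheory
open scoped Pointwise

namespace Pool.Agent.K3h4.HM

open Pool.Agent.K3h48.HM

/-- Brick CHA -/
theorem t_CHA : Pool.Agent.K3h48.HM.S_CHA := by
  intro G _ _ _ _ _ hNSS Γn Γ hdisc hCh
  classical
  obtain ⟨U, hU, hUg⟩ := hNSS
  -- an open set meeting `Γ` only in `1`
  obtain ⟨O1, hO1, hO1e⟩ : ∃ O1 : Set G, IsOpen O1 ∧ (Subtype.val ⁻¹' O1 : Set Γ) = {1} :=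
    isOpen_induced_iff.1 (isOpen_discrete ({1} : Set Γ))
  have h1O : (1 : G) ∈ O1 := by
    have h : (1 : Γ) ∈ (Subtype.val ⁻¹' O1 : Set Γ) := by
      rw [hO1e]
      exact Set.mem_singleton _
    exact h
  have hOΓ : ∀ x ∈ Γ, x ∈ O1 → x = 1 := by
    intro x hx hxO
    have h : (⟨x, hx⟩ : Γ) ∈ (Subtype.val ⁻¹' O1 : Set Γ) := hxO
    rw [hO1e, Set.mem_singleton_iff] at h
    exact congrArg Subtype.val h
  obtain ⟨V, hVc, hV1, hVs⟩ := exists_compact_subset (hO1.inter (isOpen_interior (s := U)))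
    (x := (1 : G)) ⟨h1O, mem_interior_iff_mem_nhds.2 hU⟩
  obtain ⟨W0, hW0o, hW01, hW0V⟩ := exists_open_nhds_one_mul_subset
    (mem_interior_iff_mem_nhds.1 hV1)
  have hW0V' : W0 ⊆ V := fun x hx => hW0V ⟨x, hx, 1, hW01, mul_one x⟩
  have hK : IsCompact (V \ W0) := hVc.diff hW0o
  have hKd : Disjoint (V \ W0) (Γ : Set G) := by
    rw [Set.disjoint_left]
    rintro x ⟨hxV, hxW⟩ hxΓ
    have h := hOΓ x hxΓ (hVs hxV).1
    rw [h] at hxW
    exact hxW hW01
  refine ⟨W0, hW0o.mem_nhds hW01, ?_⟩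
  filter_upwards [hCh.1 _ hK hKd] with n hn g hg hgW
  by_contra hne
  have hex : ∃ k : ℕ, g ^ k ∉ W0 := by
    by_contra hcon
    push Not at hcon
    exact hne (hUg g fun k => interior_subset (hVs (hW0V' (hcon k))).2)
  have hk := Nat.find_spec hex
  have hmin : ∀ j, j < Nat.find hex → g ^ j ∈ W0 := fun j hj => by
    have := Nat.find_min hex hj
    exact not_not.1 this
  obtain ⟨k, hkk⟩ : ∃ k, k = Nat.find hex := ⟨_, rfl⟩
  rw [← hkk] at hk hmin
  rcases k with - | j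
  · rw [pow_zero] at hk
    exact hk hW01
  · have h1 : g ^ (j + 1) ∈ V := by
      apply hW0V
      rw [pow_succ]
      exact Set.mul_mem_mul (hmin j (Nat.lt_succ_self j)) hgW
    exact Set.disjoint_left.1 hn ⟨h1, hk⟩ (pow_mem hg _)

end Pool.Agent.K3h4.HM
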